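import Mathlib
import Pool.Agent.H60.Hess

namespace Pool.Agent.Results.MP_d44d58_nt.Twelve

open Polynomial Matrix Pool.Agent.H60.Hess

/-- the matrix `M(m,n)` -/
def M (m n : ℤ) : Matrix (Fin 3) (Fin 3) ℤ := !![0, 1, n + 1; 1, 1, m + n; 0, 2, 2 * n + 1]

/-- NRS-matrix: characteristic polynomial irreducible over `ℚ` with a non-real complex root
(for a real cubic: one real root and two non-real conjugate roots). -/
def NRS (A : Matrix (Fin 3) (Fin 3) ℤ) : Prop :=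
  Irreducible (A.charpoly.map (Int.castRingHom ℚ)) ∧ ∃ z : ℂ, z.im ≠ 0 ∧ aeval z A.charpoly = 0

/-- `Δ_A(v) = |det(v, Av, A²v)|` -/
def Delta (A : Matrix (Fin 3) (Fin 3) ℤ) (v : Fin 3 → ℤ) : ℤ :=
  |(Matrix.of ![v, A *ᵥ v, (A ^ 2) *ᵥ v]).det|

theorem charpoly_M (m n : ℤ) :
    (M m n).charpoly = X ^ 3 - C (2 * n + 2) * X ^ 2 - C (2 * m) * X - 1 := by
  unfold Matrix.charpoly
  rw [Matrix.det_fin_three]
  simp [M]
  ring

theorem det_eq (m n : ℤ) (v : Fin 3 → ℤ) :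
    4 * (Matrix.of ![v, M m n *ᵥ v, (M m n ^ 2) *ᵥ v]).det =
      Nf (2 * n + 2) (2 * m) (2 * v 0 - v 2) (2 * v 1 - v 2) (v 2) := by
  rw [sq, ← Matrix.mulVec_mulVec, Matrix.det_fin_three]
  simp [M, dotProduct, Fin.sum_univ_three, Nf]
  ring

theorem irr (a b : ℤ) (h1 : a + b ≠ 0) (h2 : b - a ≠ 2) :
    Irreducible ((X ^ 3 - C a * X ^ 2 - C b * X - 1 : ℤ[X]).map (Int.castRingHom ℚ)) := by
  set f : ℤ[X] := X ^ 3 - C a * X ^ 2 - C b * X - 1 with hf
  have hm : f.Monic := by rw [hf]; monicity!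
  have hd : f.natDegree = 3 := by rw [hf]; compute_degree!
  have hd' : (f.map (Int.castRingHom ℚ)).natDegree = 3 := by rw [hm.natDegree_map, hd]
  rw [Polynomial.irreducible_iff_roots_eq_zero_of_degree_le_three (by omega) (by omega),
    Multiset.eq_zero_iff_forall_notMem]
  intro q hq
  have hq0 : aeval q f = 0 := by
    have := (Polynomial.mem_roots (hm.map _).ne_zero).1 hq
    rwa [IsRoot.def, ← algebraMap_int_eq, eval_map_algebraMap] at this
  obtain ⟨k, hk, -⟩ := exists_integer_of_is_root_of_monic hm hq0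
  rw [hk, aeval_algebraMap_apply] at hq0
  have h3 : aeval k f = 0 := by simpa using hq0
  simp only [hf, map_sub, map_pow, map_mul, aeval_X, map_one,
    eq_intCast, map_intCast, Int.cast_id] at h3
  have h4 : k * (k ^ 2 - a * k - b) = 1 := by linear_combination h3
  rcases Int.eq_one_or_neg_one_of_mul_eq_one h4 with rfl | rfl
  · apply h1; linear_combination -h4
  · apply h2; linear_combination h4

theorem nonreal (a b : ℤ) (h : 0 < E a b) :
    ∃ z : ℂ, z.im ≠ 0 ∧ aeval z (X ^ 3 - C a * X ^ 2 - C b * X - 1 : ℤ[X]) = 0 := by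
  obtain ⟨r, hr⟩ : ∃ r : ℝ, r ^ 3 - a * r ^ 2 - b * r - 1 = 0 := by
    have hc : Continuous fun t : ℝ => t ^ 3 - a * t ^ 2 - b * t - 1 := by fun_prop
    have hT : (0 : ℝ) ≤ |(a : ℝ)| + |(b : ℝ)| + 1 := by positivity
    have := intermediate_value_Icc hT hc.continuousOn
    obtain ⟨r, -, hr⟩ := this (show (0 : ℝ) ∈ _ from ⟨by simp, by
      have h1 := le_abs_self (a : ℝ)
      have h2 := le_abs_self (b : ℝ)
      have h3 := abs_nonneg (a : ℝ)
      have h4 := abs_nonneg (b : ℝ)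
      set T := |(a : ℝ)| + |(b : ℝ)| + 1
      have h5 : 1 ≤ T := by linarith
      have h6 : |(b : ℝ)| + 1 ≤ T - a := by linarith
      have h7 : |(b : ℝ)| + 1 ≤ T * (T - a) := by nlinarith
      nlinarith⟩)
    exact ⟨r, hr⟩
  set s : ℝ := a - r with hs
  set p : ℝ := -b - r * s with hp
  have hrp : r * p = 1 := by rw [hp, hs]; linear_combination hr
  have hE : (E a b : ℝ) = (r ^ 2 - s * r + p) ^ 2 * (4 * p - s ^ 2) := by
    have ha : (a : ℝ) = r + s := by rw [hs]; ring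
    have hb : (b : ℝ) = -(r * s + p) := by rw [hp]; ring
    unfold E
    push_cast
    rw [ha, hb]
    linear_combination (4 * (r + s) ^ 3 - 18 * (r + s) * (r * s + p) + 27 * (r * p + 1)) * (-1) * hrp
  have hδ : 0 < 4 * p - s ^ 2 := by
    have : (0 : ℝ) < E a b := by exact_mod_cast h
    rw [hE] at this
    by_contra hc
    have := mul_nonpos_of_nonneg_of_nonpos (sq_nonneg (r ^ 2 - s * r + p)) (le_of_not_gt hc)
    linarith
  set y := √(4 * p - s ^ 2) / 2 with hy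
  have hy2 : 4 * y ^ 2 = 4 * p - s ^ 2 := by
    rw [hy, div_pow, Real.sq_sqrt hδ.le]; ring
  refine ⟨⟨s / 2, y⟩, (show 0 < y by positivity).ne', ?_⟩
  have hq : (⟨s / 2, y⟩ : ℂ) ^ 2 - s * ⟨s / 2, y⟩ + p = 0 := by
    apply Complex.ext <;> simp [sq] <;> nlinarith
  simp only [map_sub, map_pow, map_mul, aeval_X, map_one, eq_intCast, map_intCast]
  have ha : (a : ℂ) = r + s := by
    have : (a : ℝ) = r + s := by rw [hs]; ring
    exact_mod_cast this
  have hb : (b : ℂ) = -(r * s + p) := by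
    have : (b : ℝ) = -(r * s + p) := by rw [hp]; ring
    exact_mod_cast this
  have hrp' : (r : ℂ) * p = 1 := by exact_mod_cast hrp
  rw [ha, hb]
  linear_combination (⟨s / 2, y⟩ - r) * hq + hrp'

def L : Finset (ℤ × ℤ) := {(0, 0), (1, 0), (-1, 1), (2, 1), (-2, 2), (-3, 4),
  (-1, -1), (-1, -2), (-2, 0), (-2, -3), (-3, 1), (-5, 2)}

theorem forward (m n : ℤ) (h : NRS (M m n)) (v : Fin 3 → ℤ) (hv : Delta (M m n) v = 1) :
    (m, n) ∈ L := by
  obtain ⟨hirr, z, hz, hz0⟩ := h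
  rw [charpoly_M] at hirr hz0
  obtain ⟨a, ha⟩ : ∃ a : ℤ, a = 2 * n + 2 := ⟨_, rfl⟩
  obtain ⟨b, hb⟩ : ∃ b : ℤ, b = 2 * m := ⟨_, rfl⟩
  rw [← ha, ← hb] at hirr hz0
  simp only [map_sub, map_pow, map_mul, aeval_X, map_one, eq_intCast, map_intCast] at hz0
  have hre := congrArg Complex.re hz0
  have him := congrArg Complex.im hz0
  simp [pow_succ] at hre him
  have hb' : (b : ℝ) = 3 * z.re ^ 2 - z.im ^ 2 - 2 * a * z.re := by
    apply mul_left_cancel₀ hz
    linear_combination -him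
  have hH : H a b (a - 2 * z.re) (2 * z.re) (z.re ^ 2 + z.im ^ 2) := by
    refine ⟨by ring, by rw [hb']; ring, ?_, ?_⟩
    · rw [hb'] at hre; linear_combination hre
    · have := sq_pos_of_ne_zero hz
      nlinarith
  have hab : a + b ≠ 0 := by
    intro h0
    have h1 : ((X ^ 3 - C a * X ^ 2 - C b * X - 1 : ℤ[X]).map (Int.castRingHom ℚ)).IsRoot 1 := by
      have : (a : ℚ) + b = 0 := by exact_mod_cast h0
      simp
      linarith
    have h2 := Polynomial.degree_eq_one_of_irreducible_of_root hirr h1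
    have h3 : ((X ^ 3 - C a * X ^ 2 - C b * X - 1 : ℤ[X]).map (Int.castRingHom ℚ)).degree = 3 := by
      rw [Polynomial.degree_map_eq_of_injective (RingHom.injective_int _)]
      compute_degree!
    rw [h3] at h2
    exact absurd h2 (by decide)
  have hd := det_eq m n v
  rw [← ha, ← hb] at hd
  unfold Delta at hv
  have hodd : Odd (v 2) := by
    rw [← Int.not_even_iff_odd]
    rintro ⟨w, hw⟩
    have : Nf a b (2 * v 0 - v 2) (2 * v 1 - v 2) (v 2) = 8 * Nf a b (v 0 - w) (v 1 - w) w := by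
      rw [hw]; unfold Nf; ring
    rcases abs_eq (by norm_num) |>.1 hv with h | h <;> omega
  have hne : (V a b (a - 2 * z.re)).Nonempty := by
    rcases abs_eq (by norm_num) |>.1 hv with h | h
    · exact ⟨_, _, _, _, (even_two.mul_right _).sub_odd hodd, (even_two.mul_right _).sub_odd hodd, hodd,
        by rw [← hd, h]; norm_num, rfl⟩
    · refine ⟨_, -(2 * v 0 - v 2), -(2 * v 1 - v 2), -(v 2),
        ((even_two.mul_right _).sub_odd hodd).neg, ((even_two.mul_right _).sub_odd hodd).neg,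
        hodd.neg, ?_, rfl⟩
      have : Nf a b (-(2 * v 0 - v 2)) (-(2 * v 1 - v 2)) (-(v 2)) =
        -Nf a b (2 * v 0 - v 2) (2 * v 1 - v 2) (v 2) := by unfold Nf; ring
      rw [this, ← hd, h]; norm_num
  have := classify hH ⟨n + 1, by omega⟩ ⟨m, by omega⟩ hab hne
  simp only [L6, List.mem_cons, Prod.mk.injEq, List.not_mem_nil, or_false] at this
  have hm : m = b / 2 := by omega
  have hn : n = (a - 2) / 2 := by omega
  rw [hm, hn]
  simp only [neg_eq_iff_eq_neg] at this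
  rcases this with (⟨h1, h2⟩ | ⟨h1, h2⟩ | ⟨h1, h2⟩ | ⟨h1, h2⟩ | ⟨h1, h2⟩ | ⟨h1, h2⟩) |
    (⟨h1, h2⟩ | ⟨h1, h2⟩ | ⟨h1, h2⟩ | ⟨h1, h2⟩ | ⟨h1, h2⟩ | ⟨h1, h2⟩) <;> rw [h1, h2] <;> decide

theorem backward : ∀ q ∈ L, (2 * q.2 + 2) + 2 * q.1 ≠ 0 ∧ 2 * q.1 - (2 * q.2 + 2) ≠ 2 ∧
    0 < E (2 * q.2 + 2) (2 * q.1) ∧ ∃ x ∈ ([0, 1] : List ℤ), ∃ y ∈ ([-1, 0, 1] : List ℤ),
      Nf (2 * q.2 + 2) (2 * q.1) (2 * x - 1) (2 * y - 1) 1 = 4 ∨
      Nf (2 * q.2 + 2) (2 * q.1) (2 * x - 1) (2 * y - 1) 1 = -4 := by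
  intro q hq
  simp only [L, Finset.mem_insert, Finset.mem_singleton] at hq
  rcases hq with rfl | rfl | rfl | rfl | rfl | rfl | rfl | rfl | rfl | rfl | rfl | rfl <;>
    decide +kernel

theorem result :
    {q : ℤ × ℤ | NRS (M q.1 q.2) ∧ ∃ v : Fin 3 → ℤ, Delta (M q.1 q.2) v = 1} =
      {(0, 0), (1, 0), (-1, 1), (2, 1), (-2, 2), (-3, 4),
        (-1, -1), (-1, -2), (-2, 0), (-2, -3), (-3, 1), (-5, 2)} ∧
    {q : ℤ × ℤ | NRS (M q.1 q.2) ∧ ∃ v : Fin 3 → ℤ, Delta (M q.1 q.2) v = 1}.ncard = 12 := by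
  have key : {q : ℤ × ℤ | NRS (M q.1 q.2) ∧ ∃ v : Fin 3 → ℤ, Delta (M q.1 q.2) v = 1} = ↑L := by
    ext ⟨m, n⟩
    constructor
    · rintro ⟨h, v, hv⟩
      exact forward m n h v hv
    · intro h
      obtain ⟨h1, h2, h3, x, -, y, -, h4⟩ := backward _ h
      refine ⟨⟨?_, ?_⟩, ![x, y, 1], ?_⟩
      · rw [charpoly_M]; exact irr _ _ h1 h2
      · rw [charpoly_M]; exact nonreal _ _ h3
      · have hd := det_eq m n ![x, y, 1]
        simp only [Matrix.cons_val_zero, Matrix.cons_val_one, Matrix.cons_val] at hd h4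
        unfold Delta
        rw [abs_eq (by norm_num)]
        simp only
        omega
  refine ⟨by rw [key]; simp [L], ?_⟩
  rw [key, Set.ncard_coe_finset]
  decide

end Pool.Agent.Results.MP_d44d58_nt.Twelve
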